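import Mathlib

set_option autoImplicit false

namespace Pool.Agent.Results.MP_90e7d5_co.Unbounded

open SimpleGraph

/-- `G` is a star-`k`-PCG: positive weights and `k` pairwise disjoint closed intervals. -/
def IsStarPCG {V : Type} (G : SimpleGraph V) (k : ℕ) : Prop :=
  ∃ (w : V → ℝ) (a b : Fin k → ℝ), (∀ v, 0 < w v) ∧ (∀ i, a i ≤ b i) ∧
    (∀ i j, i ≠ j → Disjoint (Set.Icc (a i) (b i)) (Set.Icc (a j) (b j))) ∧
    ∀ u v, u ≠ v → (G.Adj u v ↔ ∃ i, w u + w v ∈ Set.Icc (a i) (b i))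

lemma acyclic_of_unique {n : ℕ} (G : SimpleGraph (Fin n))
    (h : ∀ v x y, G.Adj v x → G.Adj v y → x ≤ v → y ≤ v → x = y) : G.IsAcyclic := by
  classical
  intro v c hc
  obtain ⟨m, hm, hmax⟩ := Finset.exists_max_image c.support.toFinset id
    ⟨v, by simp⟩
  have hm' : m ∈ c.support := by simpa using hm
  have hc' := hc.rotate hm'
  have hsub : ∀ x ∈ (c.rotate m hm').support, x ≤ m := by
    intro x hx
    apply hmax x
    rw [List.mem_toFinset]
    exact (Walk.mem_support_rotate_iff c m hm').1 hx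
  apply hc'.snd_ne_penultimate
  exact h m _ _ (Walk.adj_snd hc'.not_nil) (Walk.adj_penultimate hc'.not_nil).symm
    (hsub _ (Walk.getVert_mem_support _ _)) (hsub _ (Walk.getVert_mem_support _ _))

/-- the `q`-ary heap tree on `Fin n` -/
def heap (q n : ℕ) : SimpleGraph (Fin n) where
  Adj u v := (u < v ∧ (v.val - 1) / q = u.val) ∨ (v < u ∧ (u.val - 1) / q = v.val)
  symm := ⟨fun _ _ h => h.symm⟩
  loopless := ⟨fun _ h => by rcases h with h | h <;> exact lt_irrefl _ h.1⟩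

lemma heap_acyclic (q n : ℕ) : (heap q n).IsAcyclic := by
  apply acyclic_of_unique
  rintro v x y (hx | hx) (hy | hy) h1 h2
  · exact absurd hx.1 (not_lt.2 h1)
  · exact absurd hx.1 (not_lt.2 h1)
  · exact absurd hy.1 (not_lt.2 h2)
  · exact Fin.ext (hx.2.symm.trans hy.2)

lemma three (f : ℕ → ℝ) (x y z : ℕ) (hxy : x ≠ y) (hxz : x ≠ z) (hyz : y ≠ z) (P : ℕ → Prop)
    (hx : P x) (hy : P y) (hz : P z) :
    ∃ l m r, P l ∧ P m ∧ P r ∧ l ≠ m ∧ r ≠ m ∧ f l ≤ f m ∧ f m ≤ f r := by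
  rcases le_total (f x) (f y) with h1 | h1 <;> rcases le_total (f y) (f z) with h2 | h2 <;>
    rcases le_total (f x) (f z) with h3 | h3
  · exact ⟨x, y, z, hx, hy, hz, hxy, hyz.symm, h1, h2⟩
  · exact ⟨x, y, z, hx, hy, hz, hxy, hyz.symm, h1, h2⟩
  · exact ⟨x, z, y, hx, hz, hy, hxz, hyz, h3, h2⟩
  · exact ⟨z, x, y, hz, hx, hy, hxz.symm, hxy.symm, h3, h1⟩
  · exact ⟨y, x, z, hy, hx, hz, hxy.symm, hxz.symm, h1, h3⟩
  · exact ⟨y, z, x, hy, hz, hx, hyz, hxz, h2, h3⟩
  · exact ⟨z, y, x, hz, hy, hx, hyz.symm, hxy, h2, h1⟩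
  · exact ⟨z, y, x, hz, hy, hx, hyz.symm, hxy, h2, h1⟩

theorem result : ∀ c : ℕ, ∃ (n : ℕ) (G : SimpleGraph (Fin n)), G.IsAcyclic ∧
    ∀ k ≤ c, ¬ IsStarPCG G k := by
  classical
  intro c
  obtain ⟨q, hq⟩ : ∃ q, q = 2 * c + 1 := ⟨_, rfl⟩
  have hq0 : 0 < q := by omega
  obtain ⟨n, hn⟩ : ∃ n, n = (q + 1) ^ (c + 1) := ⟨_, rfl⟩
  refine ⟨n, heap q n, heap_acyclic q n, ?_⟩
  rintro k hk ⟨w, a, b, -, -, -, hG⟩
  let W : ℕ → ℝ := fun u => if h : u < n then w ⟨u, h⟩ else 0
  have rel : ∀ u v, u < v → v < n →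
      ((v - 1) / q = u ↔ ∃ i, a i ≤ W u + W v ∧ W u + W v ≤ b i) := by
    intro u v huv hv
    have hu : u < n := huv.trans hv
    have := hG ⟨u, hu⟩ ⟨v, hv⟩ (fun e => by have := congrArg Fin.val e; simp at this; omega)
    simp only [W, dif_pos hu, dif_pos hv]
    simp only [Set.mem_Icc] at this
    rw [← this]
    constructor
    · intro h; exact Or.inl ⟨huv, h⟩
    · rintro (h | h)
      · exact h.2
      · exact absurd h.1 (not_lt.2 (le_of_lt huv))
  have par : ∀ u j, j < q → (q * u + 1 + j - 1) / q = u := by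
    intro u j hj
    rw [show q * u + 1 + j - 1 = j + q * u by omega, Nat.add_mul_div_left _ _ hq0,
      Nat.div_eq_of_lt hj, zero_add]
  have bnd : ∀ t u j, u + 1 ≤ (q + 1) ^ t → j < q → q * u + 1 + j + 1 ≤ (q + 1) ^ (t + 1) := by
    intro t u j hu hj
    have : (q + 1) * (u + 1) ≤ (q + 1) ^ (t + 1) := by
      rw [pow_succ']; exact Nat.mul_le_mul_left _ hu
    nlinarith
  have pw : ∀ t, t ≤ c + 1 → (q + 1) ^ t ≤ n := fun t ht =>
    hn ▸ Nat.pow_le_pow_right (by omega) ht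
  have lt_child : ∀ u j, u < q * u + 1 + j := by
    intro u j
    have : u ≤ q * u := Nat.le_mul_of_pos_left _ hq0
    omega
  have key : ∀ t, t ≤ k → ∃ u, u + 1 ≤ (q + 1) ^ t ∧ ∃ S : Finset (Fin k), S.card + t ≤ k ∧
      (∀ i ∈ S, ∀ j, b j - a j < b i - a i → j ∈ S) ∧
      ∀ j < q, ∃ i ∈ S, a i ≤ W u + W (q * u + 1 + j) ∧ W u + W (q * u + 1 + j) ≤ b i := by
    intro t
    induction t with
    | zero =>
      intro _
      refine ⟨0, by simp, Finset.univ, by simp, by simp, fun j hj => ?_⟩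
      have h1 := bnd 0 0 j (by simp) hj
      have h2 := pw (0 + 1) (by omega)
      obtain ⟨i, hi⟩ := (rel 0 _ (lt_child 0 j) (by omega)).1 (par 0 j hj)
      exact ⟨i, Finset.mem_univ _, hi⟩
    | succ t ih =>
      intro ht
      obtain ⟨u, hu, S, hS, hdown, hch⟩ := ih (by omega)
      choose! col hcolS hcol using fun j : Fin q => hch j.val j.isLt
      obtain ⟨i, hi⟩ := Fintype.exists_lt_card_fiber_of_mul_lt_card col (n := 2)
        (by simp; omega)
      obtain ⟨x, hx, y, hy, z, hz, hxy, hxz, hyz⟩ := Finset.two_lt_card.1 hi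
      have hx' : col x = i := (Finset.mem_filter.1 hx).2
      have hy' : col y = i := (Finset.mem_filter.1 hy).2
      have hz' : col z = i := (Finset.mem_filter.1 hz).2
      have hiS : i ∈ S := hx' ▸ hcolS x
      obtain ⟨l, m, r, ⟨hl, hl1, hl2⟩, ⟨hm, hm1, hm2⟩, ⟨hr, hr1, hr2⟩, hlm, hrm, h1, h2⟩ :=
        three (fun j => W (q * u + 1 + j)) x.val y.val z.val (fun e => hxy (Fin.ext e))
          (fun e => hxz (Fin.ext e)) (fun e => hyz (Fin.ext e))
          (fun j => j < q ∧ a i ≤ W u + W (q * u + 1 + j) ∧ W u + W (q * u + 1 + j) ≤ b i)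
          ⟨x.isLt, hx' ▸ hcol x⟩ ⟨y.isLt, hy' ▸ hcol y⟩ ⟨z.isLt, hz' ▸ hcol z⟩
      have hb := bnd t u m hu hm
      refine ⟨q * u + 1 + m, hb, Finset.univ.filter fun j => b j - a j < b i - a i, ?_, ?_, ?_⟩
      · have : (Finset.univ.filter fun j => b j - a j < b i - a i) ⊂ S := by
          refine ⟨fun j hj => hdown i hiS j (Finset.mem_filter.1 hj).2, fun h => ?_⟩
          exact lt_irrefl _ (Finset.mem_filter.1 (h hiS)).2
        have := Finset.card_lt_card this
        omega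
      · intro j hj j' hj'
        exact Finset.mem_filter.2 ⟨Finset.mem_univ _, hj'.trans (Finset.mem_filter.1 hj).2⟩
      · intro j hj
        have g1 := bnd (t + 1) _ j hb hj
        have g2 := pw (t + 1 + 1) (by omega)
        have hZ : q * (q * u + 1 + m) + 1 + j < n := by omega
        have hp := par (q * u + 1 + m) j hj
        obtain ⟨i', e1, e2⟩ := (rel _ _ (lt_child _ j) hZ).1 hp
        refine ⟨i', Finset.mem_filter.2 ⟨Finset.mem_univ _, ?_⟩, e1, e2⟩
        have sib : ∀ s, s < q → s ≠ m → ¬ (a i' ≤ W (q * u + 1 + s) + W (q * (q * u + 1 + m) + 1 + j) ∧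
            W (q * u + 1 + s) + W (q * (q * u + 1 + m) + 1 + j) ≤ b i') := by
          intro s hs hsm h
          have hlt : q * u + 1 + s < q * (q * u + 1 + m) + 1 + j := by
            have : q * (q * u + 1) ≤ q * (q * u + 1 + m) := Nat.mul_le_mul_left _ (by omega)
            have h3 : q * u ≤ q * (q * u) := Nat.le_mul_of_pos_left _ hq0
            have h4 : q * (q * u + 1) = q * (q * u) + q := by ring
            omega
          have := (rel _ _ hlt hZ).2 ⟨i', h⟩
          omega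
        have n1 := sib l hl hlm
        have n2 := sib r hr hrm
        by_contra hcon
        push Not at hcon n1 n2
        by_cases hA : a i' ≤ W (q * u + 1 + l) + W (q * (q * u + 1 + m) + 1 + j)
        · have := n1 hA
          linarith
        · have := n2 (by linarith)
          push Not at hA
          linarith
  obtain ⟨u, -, S, hS, -, hch⟩ := key k le_rfl
  obtain ⟨i, hi, -⟩ := hch 0 hq0
  have : 0 < S.card := Finset.card_pos.2 ⟨i, hi⟩
  omega

end Pool.Agent.Results.MP_90e7d5_co.Unbounded
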